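import Pool.Agent.W787.PS.StmD

/-!
# Project PS: local smooth isothermal coordinates
-/

open MeasureTheory Set Metric Filter Topology
open scoped ContDiff FourierTransform ComplexConjugate

noncomputable section

namespace Pool.Agent.W787.PS

theorem qal : S_QAL := by
  intro E F G hE hD
  set D := Real.sqrt (E * G - F ^ 2) with hDdef
  have hD0 : 0 < D := Real.sqrt_pos.2 hD
  have hD2 : D ^ 2 = E * G - F ^ 2 := Real.sq_sqrt hD.le
  have hG : 0 < G := by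
    by_contra h
    have : E * G ≤ 0 := mul_nonpos_of_nonneg_of_nonpos hE.le (not_lt.1 h)
    nlinarith [sq_nonneg F]
  set T := E + G + 2 * D with hT
  have hT0 : 0 < T := by positivity
  set p := (E - G) / T with hp
  set q := 2 * F / T with hq
  have hTp : T * p = E - G := by rw [hp]; field_simp
  have hTq : T * q = 2 * F := by rw [hq]; field_simp
  have hTpq : T * (p ^ 2 + q ^ 2) = E + G - 2 * D := by
    have h1 : T * (T * (p ^ 2 + q ^ 2)) = T * (E + G - 2 * D) := by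
      have : T * (T * (p ^ 2 + q ^ 2)) = (T * p) ^ 2 + (T * q) ^ 2 := by ring
      rw [this, hTp, hTq, hT]
      linear_combination 4 * hD2
    exact mul_left_cancel₀ hT0.ne' h1
  have hμ : ((E - G : ℝ) + 2 * F * Complex.I : ℂ) / ((T : ℝ) : ℂ) = ⟨p, q⟩ := by
    apply Complex.ext
    · rw [Complex.div_ofReal_re]; simp [hp]
    · rw [Complex.div_ofReal_im]; simp [hq]
  refine ⟨hT0, ?_, ?_⟩
  · rw [hμ]
    have h1 : ‖(⟨p, q⟩ : ℂ)‖ ^ 2 = p ^ 2 + q ^ 2 := by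
      rw [Complex.sq_norm, Complex.normSq_mk]; ring
    have h2 : ‖(⟨p, q⟩ : ℂ)‖ ^ 2 < 1 := by
      rw [h1]
      by_contra h
      have h3 : T * 1 ≤ T * (p ^ 2 + q ^ 2) := mul_le_mul_of_nonneg_left (not_lt.1 h) hT0.le
      rw [hTpq] at h3
      linarith
    exact (sq_lt_one_iff₀ (norm_nonneg _)).1 h2
  · intro v
    rw [hμ]
    have h1 : ‖v + (⟨p, q⟩ : ℂ) * conj v‖ ^ 2 =
        (v.re + (p * v.re + q * v.im)) ^ 2 + (v.im + (q * v.re - p * v.im)) ^ 2 := by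
      rw [Complex.sq_norm, Complex.normSq_apply]
      simp only [Complex.add_re, Complex.add_im, Complex.mul_re, Complex.mul_im, Complex.conj_re,
        Complex.conj_im]
      ring
    rw [h1]
    unfold qf
    linear_combination (-(1 / 2) * (v.re ^ 2 - v.im ^ 2)) * hTp - v.re * v.im * hTq -
      (1 / 4) * (v.re ^ 2 + v.im ^ 2) * hTpq - (1 / 4) * (v.re ^ 2 + v.im ^ 2) * hT

theorem isol (h1 : S_QAL) (h2 : S_SML) (h3 : S_BEL) : S_ISOL := by
  intro E F G Ω z₀ hΩ hz₀ hE hF hG hpos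
  set T : ℂ → ℝ := fun z => E z + G z + 2 * Real.sqrt (E z * G z - F z ^ 2) with hT
  set μ : ℂ → ℂ := fun z => (((E z - G z : ℝ) : ℂ) + 2 * (F z : ℂ) * Complex.I) /
    ((T z : ℝ) : ℂ) with hμ
  have hTs : ContDiffOn ℝ ∞ T Ω :=
    (hE.add hG).add (contDiffOn_const.mul (((hE.mul hG).sub (hF.pow 2)).sqrt
      fun z hz => (hpos z hz).2.ne'))
  have hTpos : ∀ z ∈ Ω, 0 < T z := fun z hz => (h1 _ _ _ (hpos z hz).1 (hpos z hz).2).1
  have hof : ContDiff ℝ ∞ (fun x : ℝ => (x : ℂ)) := Complex.ofRealCLM.contDiff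
  have hμs : ContDiffOn ℝ ∞ μ Ω := by
    have a1 : ContDiffOn ℝ ∞ (fun z => ((E z - G z : ℝ) : ℂ)) Ω :=
      hof.comp_contDiffOn (hE.sub hG)
    have a2 : ContDiffOn ℝ ∞ (fun z => (F z : ℂ)) Ω := hof.comp_contDiffOn hF
    have a3 : ContDiffOn ℝ ∞ (fun z => ((T z : ℝ) : ℂ)) Ω := hof.comp_contDiffOn hTs
    have a4 : ContDiffOn ℝ ∞ (fun z => ((T z : ℝ) : ℂ)⁻¹) Ω :=
      a3.inv fun z hz => Complex.ofReal_ne_zero.2 (hTpos z hz).ne'
    exact (a1.add ((contDiffOn_const.mul a2).mul contDiffOn_const)).mul a4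
  have hμ1 : ∀ z ∈ Ω, ‖μ z‖ < 1 := fun z hz => (h1 _ _ _ (hpos z hz).1 (hpos z hz).2).2.1
  have hqf : ∀ z ∈ Ω, ∀ v : ℂ, qf (E z) (F z) (G z) v = T z / 4 * ‖v + μ z * conj v‖ ^ 2 :=
    fun z hz => (h1 _ _ _ (hpos z hz).1 (hpos z hz).2).2.2
  obtain ⟨s, β, hs, hball, hβ, hβc, hβe, hβi⟩ := h2 μ Ω z₀ hΩ hz₀ hμs ((1 - ‖μ z₀‖) / 4)
    (by have := hμ1 z₀ hz₀; linarith)
  obtain ⟨f, A, hf, hA, hfd, hA0⟩ := h3 β (μ z₀) hβ hβc (hμ1 z₀ hz₀) hβi
  set sc : ℂ → ℂ := fun z => (s⁻¹ : ℝ) • (z - z₀) with hsc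
  have hscs : ContDiff ℝ ∞ sc := (contDiff_id.sub contDiff_const).const_smul s⁻¹
  set φ : ℂ → ℂ := fun z => f (sc z) with hφ
  have hφs : ContDiff ℝ ∞ φ := hf.comp hscs
  have hφd : ∀ z v, fderiv ℝ φ z v = (s⁻¹ : ℝ) • (A (sc z) *
      (v + (μ z₀ + β (sc z)) * conj v)) := by
    intro z v
    have e1 : HasFDerivAt sc ((s⁻¹ : ℝ) • ContinuousLinearMap.id ℝ ℂ) z :=
      ((hasFDerivAt_id z).sub_const z₀).const_smul s⁻¹
    have e2 : HasFDerivAt φ _ z :=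
      ((hf.differentiable (by simp)) (sc z)).hasFDerivAt.comp z e1
    rw [e2.fderiv]
    simp only [ContinuousLinearMap.comp_apply, ContinuousLinearMap.smul_apply,
      ContinuousLinearMap.id_apply, map_smul]
    rw [hfd]
  have hin : ∀ z ∈ ball z₀ s, μ z₀ + β (sc z) = μ z := by
    intro z hz
    have h4 : sc z ∈ ball (0 : ℂ) 1 := by
      rw [mem_ball_zero_iff, hsc, norm_smul, Real.norm_of_nonneg (inv_nonneg.2 hs.le),
        inv_mul_lt_iff₀ hs, mul_one]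
      exact mem_ball_iff_norm.1 hz
    rw [hβe _ h4]
    have h5 : z₀ + (s : ℂ) * sc z = z := by
      have hs' : (s : ℂ) ≠ 0 := Complex.ofReal_ne_zero.2 hs.ne'
      rw [hsc]
      simp only [Complex.real_smul, Complex.ofReal_inv]
      field_simp
      ring
    rw [h5]
    ring
  set U : Set ℂ := ball z₀ s ∩ {z | A (sc z) ≠ 0} with hU
  have hUo : IsOpen U :=
    isOpen_ball.inter (isOpen_ne_fun (hA.continuous.comp hscs.continuous) continuous_const)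
  have hUΩ : U ⊆ Ω := fun z hz => hball hz.1
  have hz₀U : z₀ ∈ U := by
    refine ⟨mem_ball_self hs, ?_⟩
    simp only [Set.mem_ofPred_eq, hsc, sub_self, smul_zero]
    exact hA0
  have hequiv : ∀ z ∈ U, ∃ e : ℂ ≃L[ℝ] ℂ, HasFDerivAt φ (e : ℂ →L[ℝ] ℂ) z := by
    intro z hz
    have hinj : Function.Injective (fderiv ℝ φ z : ℂ →ₗ[ℝ] ℂ) := by
      rw [injective_iff_map_eq_zero]
      intro v hv
      have h4 : fderiv ℝ φ z v = 0 := hv
      rw [hφd, hin z hz.1, smul_eq_zero, mul_eq_zero] at h4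
      rcases h4 with h4 | h4 | h4
      · exact absurd h4 (inv_ne_zero hs.ne')
      · exact absurd h4 hz.2
      · by_contra hv0
        have h5 : ‖v‖ = ‖μ z‖ * ‖v‖ := by
          have : v = -(μ z * conj v) := eq_neg_of_add_eq_zero_left h4
          calc ‖v‖ = ‖-(μ z * conj v)‖ := by rw [← this]
            _ = ‖μ z‖ * ‖v‖ := by rw [norm_neg, norm_mul, Complex.norm_conj]
        have h6 : 0 < ‖v‖ := norm_pos_iff.2 hv0
        have h7 := hμ1 z (hUΩ hz)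
        nlinarith
    refine ⟨(LinearEquiv.ofInjectiveEndo _ hinj).toContinuousLinearEquiv, ?_⟩
    have h4 : (((LinearEquiv.ofInjectiveEndo (fderiv ℝ φ z : ℂ →ₗ[ℝ] ℂ)
        hinj).toContinuousLinearEquiv : ℂ ≃L[ℝ] ℂ) : ℂ →L[ℝ] ℂ) = fderiv ℝ φ z := by
      ext v <;> rfl
    rw [h4]
    exact ((hφs.differentiable (by simp)) z).hasFDerivAt
  obtain ⟨e₀, he₀⟩ := hequiv z₀ hz₀U
  set P := (hφs.contDiffAt (x := z₀)).toOpenPartialHomeomorph φ he₀ (by simp) with hP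
  have hPc : (P : ℂ → ℂ) = φ := rfl
  have hPz : z₀ ∈ P.source :=
    (hφs.contDiffAt (x := z₀)).mem_toOpenPartialHomeomorph_source he₀ (by simp)
  set Ψ := P.restrOpen U hUo with hΨ
  have hΨc : (Ψ : ℂ → ℂ) = φ := rfl
  have hsrc : Ψ.source = P.source ∩ U := P.restrOpen_source U hUo
  have hsU : Ψ.source ⊆ U := by rw [hsrc]; exact inter_subset_right
  have hsymm : ContDiffOn ℝ ∞ Ψ.symm Ψ.target := by
    intro w hw
    have hw' : Ψ.symm w ∈ Ψ.source := Ψ.map_target hw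
    obtain ⟨e, he⟩ := hequiv _ (hsU hw')
    refine (Ψ.contDiffAt_symm hw (f₀' := e) ?_ ?_).contDiffWithinAt
    · rw [hΨc]; exact he
    · rw [hΨc]; exact hφs.contDiffAt
  set g : ℂ → ℝ := fun z => T z / 4 * s ^ 2 / ‖A (sc z)‖ ^ 2 with hg
  have hgs : ContDiffOn ℝ ∞ g U := by
    refine ContDiffOn.div ?_ ?_ ?_
    · exact ((hTs.mono hUΩ).div_const 4).mul contDiffOn_const
    · exact ((hA.comp hscs).norm_sq ℝ).contDiffOn
    · intro z hz
      exact pow_ne_zero _ (norm_ne_zero_iff.2 hz.2)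
  refine ⟨Ψ, fun w => g (Ψ.symm w), ?_, hsU.trans hUΩ, ?_, hsymm, ?_, ?_, ?_⟩
  · rw [hsrc]; exact ⟨hPz, hz₀U⟩
  · rw [hΨc]; exact hφs.contDiffOn
  · exact hgs.comp hsymm fun w hw => hsU (Ψ.map_target hw)
  · intro w hw
    have hw' := hsU (Ψ.map_target hw)
    have h4 := hTpos _ (hUΩ hw')
    have h5 : 0 < ‖A (sc (Ψ.symm w))‖ := norm_pos_iff.2 hw'.2
    simp only [hg]
    positivity
  · intro z hz v
    have hzU := hsU hz
    have h5 : 0 < ‖A (sc z)‖ := norm_pos_iff.2 hzU.2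
    have h6 : g (Ψ.symm (Ψ z)) = g z := by rw [Ψ.left_inv hz]
    have h7 : ‖fderiv ℝ Ψ z v‖ = s⁻¹ * (‖A (sc z)‖ * ‖v + μ z * conj v‖) := by
      rw [hΨc, hφd, hin z hzU.1, norm_smul, norm_mul, Real.norm_of_nonneg (inv_nonneg.2 hs.le)]
    change qf (E z) (F z) (G z) v = g (Ψ.symm (Ψ z)) * ‖fderiv ℝ Ψ z v‖ ^ 2
    rw [h6, h7, hqf z (hUΩ hzU)]
    simp only [hg]
    field_simp

end Pool.Agent.W787.PS
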