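import Pool.Agent.W787.PS.StmA

/-!
# Project PS: Brezis-Merle inequality by Jensen
-/

open MeasureTheory Set Metric Filter Topology

noncomputable section

namespace Pool.Agent.W787.PS

theorem bmj_powInt (β R : ℝ) (hβ : β < 2) :
    IntegrableOn (fun z : ℂ => ‖z‖ ^ (-β)) (ball 0 R) := by
  refine integrableOn_ball_of_norm_le_rpow (C := 1) (α := β)
    (by rw [Complex.finrank_real_complex]; norm_num)
    (by rw [Complex.finrank_real_complex]; exact_mod_cast hβ) ?_ ?_
  · refine Filter.Eventually.of_forall fun x => ?_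
    rw [one_mul, Real.norm_of_nonneg (Real.rpow_nonneg (norm_nonneg _) _)]
  · exact (measurable_norm.pow_const _).aestronglyMeasurable

theorem bmj_logInt (R : ℝ) : IntegrableOn (fun z : ℂ => Real.log ‖z‖) (ball 0 R) := by
  refine integrableOn_ball_of_norm_le_rpow (C := 1 + R ^ 2) (α := 1)
    (by rw [Complex.finrank_real_complex]; norm_num)
    (by rw [Complex.finrank_real_complex]; norm_num) ?_ ?_
  · rw [ae_restrict_iff' measurableSet_ball]
    refine Filter.Eventually.of_forall fun x hx => ?_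
    rw [mem_ball_zero_iff] at hx
    rcases eq_or_lt_of_le (norm_nonneg x) with h | h
    · rw [← h]; simp
    · rw [Real.rpow_neg_one, Real.norm_eq_abs, abs_le]
      have h1 := Real.one_sub_inv_le_log_of_pos h
      have h2 := Real.log_le_sub_one_of_pos h
      have h3 : 0 < ‖x‖⁻¹ := inv_pos.2 h
      have h4 : R ^ 2 * ‖x‖⁻¹ ≥ ‖x‖ := by
        rw [ge_iff_le, ← div_eq_mul_inv, le_div_iff₀ h]
        nlinarith
      constructor
      · nlinarith
      · nlinarith
  · exact (Real.measurable_log.comp measurable_norm).aestronglyMeasurable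

/-- translation of an integrable function -/
theorem bmj_shift {f : ℂ → ℝ} (hf : IntegrableOn f (ball 0 5)) {x : ℂ} (hx : x ∈ ball (0 : ℂ) 1) :
    IntegrableOn (fun y => f (x - y)) (ball 0 4) := by
  have h1 : IntegrableOn (fun y => f (x - y)) ((fun y => x - y) ⁻¹' ball 0 5) := by
    have h := (Measure.measurePreserving_sub_left (volume : Measure ℂ) x).integrableOn_comp_preimage
      (Homeomorph.subLeft x).measurableEmbedding (f := f) (s := ball 0 5)
    exact h.2 hf
  refine h1.mono_set fun y hy => ?_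
  rw [mem_ball_zero_iff] at hx hy
  rw [mem_preimage, mem_ball_zero_iff]
  have := norm_sub_le x y
  linarith

/-- a bounded continuous weight -/
theorem bmj_mul {f : ℂ → ℝ} (hf : IntegrableOn f (ball 0 4)) {ρ : ℂ → ℝ} (hc : Continuous ρ) :
    IntegrableOn (fun y => f y * ρ y) (ball 0 4) := by
  obtain ⟨C, hC⟩ := (isCompact_closedBall (0 : ℂ) 4).exists_bound_of_continuousOn hc.continuousOn
  refine hf.mul_bdd (c := C) hc.aestronglyMeasurable ?_
  rw [ae_restrict_iff' measurableSet_ball]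
  exact Filter.Eventually.of_forall fun y hy => hC y (ball_subset_closedBall hy)

theorem bmj_jensen {ρ : ℂ → ℝ} (hc : Continuous ρ) (h0 : ∀ x, 0 ≤ ρ x) (hm : 0 < ms ρ 0 4)
    {a : ℝ} (ha : 0 < a) (ha2 : a < 2) {x : ℂ} (hx : x ∈ ball (0 : ℂ) 1) :
    Real.exp (-(a / ms ρ 0 4) * ∫ y in ball (0 : ℂ) 4, Real.log ‖x - y‖ * ρ y) * ms ρ 0 4 ≤
      ∫ y in ball (0 : ℂ) 4, ‖x - y‖ ^ (-a) * ρ y := by
  set m := ms ρ 0 4 with hmdef
  set I := ∫ y in ball (0 : ℂ) 4, Real.log ‖x - y‖ * ρ y with hI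
  set M := -(a / m) * I with hM
  have i1 : IntegrableOn (fun y => Real.log ‖x - y‖ * ρ y) (ball 0 4) :=
    bmj_mul (bmj_shift (bmj_logInt 5) hx) hc
  have i2 : IntegrableOn (fun y => ‖x - y‖ ^ (-a) * ρ y) (ball 0 4) :=
    bmj_mul (bmj_shift (bmj_powInt a 5 ha2) hx) hc
  have i3 : IntegrableOn ρ (ball 0 4) :=
    (hc.continuousOn.integrableOn_compact (isCompact_closedBall (0 : ℂ) 4)).mono_set
      ball_subset_closedBall
  have e1 : ∫ y in ball (0 : ℂ) 4, (Real.exp M * (1 - M)) * ρ y +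
      (Real.exp M * (-a)) * (Real.log ‖x - y‖ * ρ y) = Real.exp M * m := by
    rw [integral_add (i3.const_mul _) (i1.const_mul _), integral_const_mul, integral_const_mul,
      ← hI]
    have : ∫ y in ball (0 : ℂ) 4, ρ y = m := rfl
    rw [this]
    have h2 : a * I = - M * m := by
      rw [hM]; field_simp
    linear_combination (-Real.exp M) * h2
  rw [← e1]
  refine integral_mono_ae ((i3.const_mul _).add (i1.const_mul _)) i2 ?_
  have hne : ∀ᵐ y ∂(volume.restrict (ball (0 : ℂ) 4)), y ≠ x := by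
    refine ae_restrict_of_ae ?_
    have : (volume : Measure ℂ) {x} = 0 := measure_singleton x
    exact (measure_eq_zero_iff_ae_notMem.1 this)
  filter_upwards [hne] with y hy
  have hpos : 0 < ‖x - y‖ := norm_pos_iff.2 (sub_ne_zero.2 (Ne.symm hy))
  have h1 : ‖x - y‖ ^ (-a) = Real.exp (-a * Real.log ‖x - y‖) := by
    rw [Real.rpow_def_of_pos hpos]; ring_nf
  rw [h1]
  have h2 : Real.exp M * (1 + (-a * Real.log ‖x - y‖ - M)) ≤ Real.exp (-a * Real.log ‖x - y‖) := by
    have h3 := Real.add_one_le_exp (-a * Real.log ‖x - y‖ - M)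
    have h4 : Real.exp (-a * Real.log ‖x - y‖) =
        Real.exp M * Real.exp (-a * Real.log ‖x - y‖ - M) := by
      rw [← Real.exp_add]; ring_nf
    rw [h4]
    exact mul_le_mul_of_nonneg_left (by linarith) (Real.exp_pos _).le
  have h5 := mul_le_mul_of_nonneg_right h2 (h0 y)
  linarith

/-- the inner integral -/
theorem bmj_inner {a b : ℝ} (ha : 0 < a) (hab : a ≤ b) {y : ℂ} (hy : y ∈ ball (0 : ℂ) 4) :
    ∫⁻ x in ball (0 : ℂ) 1, ENNReal.ofReal (‖x - y‖ ^ (-a)) ≤
      ∫⁻ z in ball (0 : ℂ) 5, ENNReal.ofReal (5 ^ b * ‖z‖ ^ (-b)) := by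
  rw [← lintegral_indicator measurableSet_ball, ← lintegral_indicator measurableSet_ball]
  rw [← lintegral_sub_right_eq_self ((ball (0 : ℂ) 5).indicator fun z =>
    ENNReal.ofReal (5 ^ b * ‖z‖ ^ (-b))) y]
  refine lintegral_mono fun x => ?_
  by_cases hx : x ∈ ball (0 : ℂ) 1
  · have h1 : x - y ∈ ball (0 : ℂ) 5 := by
      rw [mem_ball_zero_iff] at hx hy ⊢
      have := norm_sub_le x y
      linarith
    rw [indicator_of_mem hx, indicator_of_mem h1]
    refine ENNReal.ofReal_le_ofReal ?_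
    rw [mem_ball_zero_iff] at h1
    rcases eq_or_lt_of_le (norm_nonneg (x - y)) with h | h
    · rw [← h, Real.zero_rpow (by linarith)]
      positivity
    · have h2 : (5 : ℝ) ^ b * ‖x - y‖ ^ (-b) = (5 / ‖x - y‖) ^ b := by
        rw [Real.div_rpow (by norm_num) h.le, Real.rpow_neg h.le]; rfl
      have h3 : ‖x - y‖ ^ (-a) = (‖x - y‖⁻¹) ^ a := by
        rw [Real.inv_rpow h.le, Real.rpow_neg h.le]
      rw [h2, h3]
      have h4 : 1 ≤ 5 / ‖x - y‖ := by rw [one_le_div h]; exact h1.le
      calc (‖x - y‖⁻¹) ^ a ≤ (5 / ‖x - y‖) ^ a := by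
            refine Real.rpow_le_rpow (by positivity) ?_ ha.le
            rw [div_eq_mul_inv]
            have : 0 < ‖x - y‖⁻¹ := inv_pos.2 h
            linarith
        _ ≤ (5 / ‖x - y‖) ^ b := Real.rpow_le_rpow_of_exponent_le h4 hab
  · rw [indicator_of_notMem hx]
    exact bot_le

/-- **BMJ** -/
theorem bmj : S_BMJ := by
  intro b hb hb2
  have hKint : IntegrableOn (fun z : ℂ => (5 : ℝ) ^ b * ‖z‖ ^ (-b)) (ball 0 5) :=
    (bmj_powInt b 5 hb2).const_mul _
  set K := ∫⁻ z in ball (0 : ℂ) 5, ENNReal.ofReal (5 ^ b * ‖z‖ ^ (-b)) with hK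
  have hKt : K ≠ ⊤ := hKint.lintegral_lt_top.ne
  refine ⟨K.toReal + Real.pi, by have := Real.pi_pos; have := ENNReal.toReal_nonneg (a := K);
                                  linarith, ?_⟩
  intro ρ q hq hc h0 hqm
  have i3 : IntegrableOn ρ (ball 0 4) :=
    (hc.continuousOn.integrableOn_compact (isCompact_closedBall (0 : ℂ) 4)).mono_set
      ball_subset_closedBall
  have hm0 : 0 ≤ ms ρ 0 4 := setIntegral_nonneg measurableSet_ball fun x _ => h0 x
  rcases eq_or_lt_of_le hm0 with hm | hm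
  · have h1 : ρ =ᵐ[volume.restrict (ball (0 : ℂ) 4)] 0 :=
      (integral_eq_zero_iff_of_nonneg h0 i3).1 hm.symm
    have h2 : ∀ x : ℂ, ∫ y in ball (0 : ℂ) 4, Real.log ‖x - y‖ * ρ y = 0 := by
      intro x
      refine integral_eq_zero_of_ae ?_
      filter_upwards [h1] with y hy
      simp [hy]
    have h3 : ∫ x in ball (0 : ℂ) 1, Real.exp (-(q / (2 * Real.pi)) *
        ∫ y in ball (0 : ℂ) 4, Real.log ‖x - y‖ * ρ y) = Real.pi := by
      simp only [h2, mul_zero, Real.exp_zero]
      rw [setIntegral_const, Measure.real, Complex.volume_ball]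
      simp
    rw [h3]
    have := ENNReal.toReal_nonneg (a := K)
    linarith
  · set m := ms ρ 0 4 with hmdef
    set a := q * m / (2 * Real.pi) with hadef
    have hpi := Real.pi_pos
    have ha : 0 < a := by positivity
    have hab : a ≤ b := by
      rw [hadef, div_le_iff₀ (by positivity)]
      linarith
    have ha2 : a < 2 := lt_of_le_of_lt hab hb2
    set G : ℂ → ℝ := fun x => Real.exp (-(q / (2 * Real.pi)) *
        ∫ y in ball (0 : ℂ) 4, Real.log ‖x - y‖ * ρ y) with hG
    have hle : ∫⁻ x in ball (0 : ℂ) 1, ENNReal.ofReal (G x) ≤ K := by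
      have hpt : ∀ x ∈ ball (0 : ℂ) 1, ENNReal.ofReal (G x) ≤ ENNReal.ofReal m⁻¹ *
          ∫⁻ y in ball (0 : ℂ) 4, ENNReal.ofReal (‖x - y‖ ^ (-a)) * ENNReal.ofReal (ρ y) := by
        intro x hx
        have i2 : IntegrableOn (fun y => ‖x - y‖ ^ (-a) * ρ y) (ball 0 4) :=
          bmj_mul (bmj_shift (bmj_powInt a 5 ha2) hx) hc
        have h1 := bmj_jensen hc h0 hm ha ha2 hx
        have h2 : a / ms ρ 0 4 = q / (2 * Real.pi) := by
          rw [← hmdef, hadef]; field_simp
        rw [h2, ← hmdef] at h1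
        have h3 : G x ≤ m⁻¹ * ∫ y in ball (0 : ℂ) 4, ‖x - y‖ ^ (-a) * ρ y := by
          rw [inv_mul_eq_div, le_div_iff₀ hm]
          exact h1
        refine (ENNReal.ofReal_le_ofReal h3).trans ?_
        rw [ENNReal.ofReal_mul (inv_nonneg.2 hm.le)]
        refine mul_le_mul_right ?_ _
        rw [ofReal_integral_eq_lintegral_ofReal i2 (Filter.Eventually.of_forall fun y =>
          mul_nonneg (Real.rpow_nonneg (norm_nonneg _) _) (h0 y))]
        refine le_of_eq (lintegral_congr fun y => ?_)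
        rw [ENNReal.ofReal_mul (Real.rpow_nonneg (norm_nonneg _) _)]
      have hmeas : Measurable (fun p : ℂ × ℂ =>
          ENNReal.ofReal (‖p.1 - p.2‖ ^ (-a)) * ENNReal.ofReal (ρ p.2)) := by
        have e1 : Measurable fun p : ℂ × ℂ => ‖p.1 - p.2‖ ^ (-a) :=
          ((measurable_fst.sub measurable_snd).norm).pow_const _
        have e2 : Measurable fun p : ℂ × ℂ => ρ p.2 := hc.measurable.comp measurable_snd
        exact e1.ennreal_ofReal.mul e2.ennreal_ofReal
      calc ∫⁻ x in ball (0 : ℂ) 1, ENNReal.ofReal (G x)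
          ≤ ∫⁻ x in ball (0 : ℂ) 1, ENNReal.ofReal m⁻¹ * ∫⁻ y in ball (0 : ℂ) 4,
              ENNReal.ofReal (‖x - y‖ ^ (-a)) * ENNReal.ofReal (ρ y) :=
            setLIntegral_mono' measurableSet_ball hpt
        _ = ENNReal.ofReal m⁻¹ * ∫⁻ x in ball (0 : ℂ) 1, ∫⁻ y in ball (0 : ℂ) 4,
              ENNReal.ofReal (‖x - y‖ ^ (-a)) * ENNReal.ofReal (ρ y) := by
            rw [lintegral_const_mul']
            exact ENNReal.ofReal_ne_top
        _ = ENNReal.ofReal m⁻¹ * ∫⁻ y in ball (0 : ℂ) 4, ∫⁻ x in ball (0 : ℂ) 1,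
              ENNReal.ofReal (‖x - y‖ ^ (-a)) * ENNReal.ofReal (ρ y) := by
            rw [lintegral_lintegral_swap]
            exact hmeas.aemeasurable
        _ ≤ ENNReal.ofReal m⁻¹ * ∫⁻ y in ball (0 : ℂ) 4, K * ENNReal.ofReal (ρ y) := by
            refine mul_le_mul_right (setLIntegral_mono' measurableSet_ball fun y hy => ?_) _
            rw [lintegral_mul_const']
            · exact mul_le_mul_left (bmj_inner ha hab hy) _
            · exact ENNReal.ofReal_ne_top
        _ = K := by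
            rw [lintegral_const_mul' _ _ hKt, ← ofReal_integral_eq_lintegral_ofReal i3
              (Filter.Eventually.of_forall h0)]
            have : ∫ y in ball (0 : ℂ) 4, ρ y = m := rfl
            rw [this, mul_left_comm, ← ENNReal.ofReal_mul (inv_nonneg.2 hm.le),
              inv_mul_cancel₀ hm.ne', ENNReal.ofReal_one, mul_one]
    by_cases hi : IntegrableOn G (ball 0 1)
    · have h1 : ∫ x in ball (0 : ℂ) 1, G x =
          (∫⁻ x in ball (0 : ℂ) 1, ENNReal.ofReal (G x)).toReal :=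
        integral_eq_lintegral_of_nonneg_ae (Filter.Eventually.of_forall fun x =>
          (Real.exp_pos _).le) hi.aestronglyMeasurable
      rw [h1]
      have h2 := ENNReal.toReal_mono hKt hle
      linarith
    · rw [integral_undef hi]
      have := ENNReal.toReal_nonneg (a := K)
      linarith

end Pool.Agent.W787.PS
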